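import Pool.Agent.L5helper13.TQ.Defs

set_option autoImplicit false

namespace Pool.Agent.L5helper13.TQ

/-- TQ4 -/
theorem abstract_main (k : Type) [Field k] [CharZero k] (V : Type) [AddCommGroup V] [Module k V]
    (T : Type) [CommGroup T] (l : T → V →ₗ[k] V) (B : T → V →ₗ[k] V →ₗ[k] V)
    (hsym : ∀ t x y, B t x y = B t y x) (h1 : ∀ x, l 1 x = x)
    (hl : ∀ s t x, l (s * t) x = l s (l t x))
    (h2 : ∀ s t x, B (s * t) x x = l s (B t x x) + B s (l t x) (l t x))
    (h3 : ∀ s t x, B s (l t x) (B t x x) = 0)
    (h4 : ∀ s t x, B s (B t x x) (B t x x) = 0)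
    (E : (T → V) →ₗ[k] V) (E1 : ∀ (A : V →ₗ[k] V) (f : T → V), E (fun t => A (f t)) = A (E f))
    (E2 : ∀ v, E (fun _ => v) = v)
    (E3 : ∀ x y s, E (fun t => l (t * s)⁻¹ (B (t * s) x y)) = E (fun t => l t⁻¹ (B t x y)))
    (E4 : ∀ x y, E (fun t => l t (B t⁻¹ x y)) = E (fun t => l t⁻¹ (B t x y))) :
    ∃ M : V →ₗ[k] V →ₗ[k] V, (∀ x y, M x y = M y x) ∧ (∀ x, M x (M x x) = 0) ∧
      (∀ x, M (M x x) (M x x) = 0) ∧
      ∀ s x, (l s x + B s x x) + M (l s x + B s x x) (l s x + B s x x) = l s (x + M x x) := by
  -- the bilinear map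
  let M : V →ₗ[k] V →ₗ[k] V := LinearMap.mk₂ k (fun x y => E (fun t => l t⁻¹ (B t x y)))
    (fun x x' y => by
      rw [← map_add]; congr 1; funext t; simp [map_add])
    (fun c x y => by
      rw [← map_smul]; congr 1; funext t; simp [map_smul])
    (fun x y y' => by
      rw [← map_add]; congr 1; funext t; simp [map_add])
    (fun c x y => by
      rw [← map_smul]; congr 1; funext t; simp [map_smul])
  have hM : ∀ x y, M x y = E (fun t => l t⁻¹ (B t x y)) := fun x y => rfl
  have hMs : ∀ x y, M x y = M y x := by
    intro x y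
    rw [hM, hM]
    congr 1
    funext t
    rw [hsym]
  have two : ∀ v w : V, v + v = w + w → v = w := by
    intro v w h
    have h' : (2 : k) • v = (2 : k) • w := by rw [two_smul, two_smul, h]
    exact smul_right_injective V (two_ne_zero (α := k)) h'
  -- polarization of the cocycle identity
  have h2' : ∀ s t x y, B (s * t) x y = l s (B t x y) + B s (l t x) (l t y) := by
    intro s t x y
    have e := h2 s t (x + y)
    simp only [map_add, LinearMap.add_apply] at e
    have ex := h2 s t x
    have ey := h2 s t y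
    rw [hsym (s * t) y x, hsym t y x, hsym s (l t y) (l t x), ex, ey] at e
    apply two
    have e' : l s (B t x x) + B s (l t x) (l t x) + B (s * t) x y +
        (B (s * t) x y + (l s (B t y y) + B s (l t y) (l t y))) =
        l s (B t x x) + l s (B t x y) + (l s (B t x y) + l s (B t y y)) +
        (B s (l t x) (l t x) + B s (l t x) (l t y) + (B s (l t x) (l t y) + B s (l t y) (l t y))) := by
      exact e
    have e2 : B (s * t) x y + B (s * t) x y =
        (l s (B t x x) + B s (l t x) (l t x) + B (s * t) x y +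
        (B (s * t) x y + (l s (B t y y) + B s (l t y) (l t y)))) -
        (l s (B t x x) + B s (l t x) (l t x) + (l s (B t y y) + B s (l t y) (l t y))) := by abel
    rw [e2, e']
    abel
  have linv : ∀ t x, l t⁻¹ (l t x) = x := by
    intro t x
    rw [← hl, inv_mul_cancel, h1]
  have linv' : ∀ t x, l t (l t⁻¹ x) = x := by
    intro t x
    rw [← hl, mul_inv_cancel, h1]
  -- (A)
  have hA : ∀ s x y, M (l s x) (l s y) = l s (M x y) - B s x y := by
    intro s x y
    have e1 : (fun t => l t⁻¹ (B t (l s x) (l s y))) =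
        (fun t => l s (l (t * s)⁻¹ (B (t * s) x y))) - fun _ => B s x y := by
      funext t
      have e := h2' t s x y
      have e' : B t (l s x) (l s y) = B (t * s) x y - l t (B s x y) := by
        rw [e]; abel
      simp only [Pi.sub_apply]
      rw [e', map_sub, linv, ← hl]
      congr 3
      simp
    rw [hM, e1, map_sub, E1, E3, E2, hM]
  have hC : ∀ s x, M (l s x) (B s x x) = 0 := by
    intro s x
    rw [hM]
    have : (fun t => l t⁻¹ (B t (l s x) (B s x x))) = 0 := by
      funext t
      rw [h3, map_zero]; rfl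
    rw [this, map_zero]
  have hD : ∀ s x, M (B s x x) (B s x x) = 0 := by
    intro s x
    rw [hM]
    have : (fun t => l t⁻¹ (B t (B s x x) (B s x x))) = 0 := by
      funext t
      rw [h4, map_zero]; rfl
    rw [this, map_zero]
  have hB1 : ∀ x y, B 1 x y = 0 := by
    intro x y
    have e := h2' 1 1 x y
    rw [mul_one, h1, h1, h1] at e
    have : B 1 x y + B 1 x y = B 1 x y + 0 := by rw [← e, add_zero]
    exact add_left_cancel this
  have hN : ∀ s x, l s (B s⁻¹ x x) = - B s (l s⁻¹ x) (l s⁻¹ x) := by
    intro s x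
    have e := h2' s s⁻¹ x x
    rw [mul_inv_cancel, hB1] at e
    exact eq_neg_of_add_eq_zero_left e.symm
  have hMN : ∀ s x, M x (l s (B s⁻¹ x x)) = 0 := by
    intro s x
    rw [hN, map_neg]
    have e := hC s (l s⁻¹ x)
    rw [linv'] at e
    rw [e, neg_zero]
  have hMM : ∀ x, M x (M x x) = 0 := by
    intro x
    have e := E1 (M x) (fun s => l s (B s⁻¹ x x))
    rw [E4, ← hM] at e
    rw [← e]
    have : (fun s => M x (l s (B s⁻¹ x x))) = 0 := by
      funext s
      exact hMN s x
    rw [this, map_zero]
  refine ⟨M, hMs, hMM, ?_, ?_⟩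
  · -- polarization of `M x (M x x) = 0`
    have pol : ∀ x y, M y (M x x) + (M x (M x y) + M x (M x y)) = 0 := by
      intro x y
      have ep := hMM (x + y)
      have em := hMM (x - y)
      have ex := hMM x
      have ey := hMM y
      simp only [map_add, map_sub, LinearMap.add_apply, LinearMap.sub_apply] at ep em
      rw [hMs y x] at ep em
      rw [ex, ey] at ep em
      apply two
      rw [add_zero]
      have := congrArg₂ (fun a b => a - b) ep em
      simp only [sub_zero] at this
      rw [← this]
      abel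
    intro x
    have e := pol x (M x x)
    rw [hMM, map_zero, add_zero, add_zero] at e
    exact e
  · intro s x
    have e1 := hA s x x
    have e2 := hC s x
    have e3 := hD s x
    have e4 : M (B s x x) (l s x) = 0 := by rw [hMs]; exact e2
    simp only [map_add, LinearMap.add_apply]
    rw [e1, e2, e3, e4]
    abel

end Pool.Agent.L5helper13.TQ
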